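import Pool.Agent.Helper36.MT7.Hz

/-!
# G07: the identity component of the `l`-adic monodromy group
-/

set_option autoImplicit false

open NumberField MU

namespace MT.H36

variable {F : Type} [Field F] [NumberField F] {S : Finset ℕ} {n w : ℕ} {h : Fin n → ℕ}

/-- the character `det(ρ) cyc ^ (w m)` (quadratic for `n = 2 m`) -/
noncomputable def chi (M : PMot F S n w h) (l : ℕ) [Fact l.Prime] (m : ℕ) : Gal F →* ℚ_[l] where
  toFun σ := (mat (M.ρ l) σ).det * (((cyc l F σ : ℤ_[l]ˣ) : ℤ_[l]) : ℚ_[l]) ^ (w * m)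
  map_one' := by
    rw [map_one, map_one, Matrix.det_one, Units.val_one, PadicInt.coe_one, one_pow, one_mul]
  map_mul' := by
    intro a b
    rw [map_mul, map_mul, Matrix.det_mul, Units.val_mul, PadicInt.coe_mul, mul_pow]
    ring

omit [NumberField F] in
theorem cyc_ne (l : ℕ) [Fact l.Prime] (σ : Gal F) :
    (((cyc l F σ : ℤ_[l]ˣ) : ℤ_[l]) : ℚ_[l]) ≠ 0 := by
  intro h0
  have h1 : ((cyc l F σ : ℤ_[l]ˣ) : ℤ_[l]) = 0 := by
    apply Subtype.ext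
    rw [h0]
    rfl
  exact (cyc l F σ).ne_zero h1

theorem chi_sq (M : PMot F S n w h) (l : ℕ) [Fact l.Prime] (m : ℕ) (hm : n = m + m) (σ : Gal F) :
    chi M l m σ = 1 ∨ chi M l m σ = -1 := by
  have h1 := congrArg Matrix.det (M.ψ_gal l σ)
  rw [Matrix.det_smul, Matrix.det_mul, Matrix.det_mul, Matrix.det_transpose,
    Fintype.card_fin] at h1
  have h2 : (bas ℚ_[l] M.ψ).det ≠ 0 := bas_det_ne ℚ_[l] M.ψ_det
  have h3 : (chi M l m σ) ^ 2 * (bas ℚ_[l] M.ψ).det = 1 * (bas ℚ_[l] M.ψ).det := by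
    rw [one_mul]
    conv_rhs => rw [← h1]
    change ((mat (M.ρ l) σ).det * (((cyc l F σ : ℤ_[l]ˣ) : ℤ_[l]) : ℚ_[l]) ^ (w * m)) ^ 2 * _ = _
    have h4 : ((((cyc l F σ : ℤ_[l]ˣ) : ℤ_[l]) : ℚ_[l]) ^ w) ^ n =
        ((((cyc l F σ : ℤ_[l]ˣ) : ℤ_[l]) : ℚ_[l]) ^ (w * m)) ^ 2 := by
      rw [← pow_mul, ← pow_mul, hm]
      congr 1
      ring
    rw [h4]
    ring
  have h5 := mul_right_cancel₀ h2 h3
  exact sq_eq_one_iff.mp h5

theorem chi_continuous (M : PMot F S n w h) (l : ℕ) [Fact l.Prime] (m : ℕ) :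
    Continuous (chi M l m) := by
  have h1 : Continuous fun σ => mat (M.ρ l) σ := Units.continuous_val.comp (M.continuous l)
  have h2 : Continuous fun σ : Gal F => cyc l F σ :=
    cyclotomicCharacter.continuous l F (AlgebraicClosure F)
  have h3' : Continuous fun σ : Gal F => ((cyc l F σ : ℤ_[l]ˣ) : ℤ_[l]) :=
    Units.continuous_val.comp h2
  have h3 : Continuous fun σ : Gal F => (((cyc l F σ : ℤ_[l]ˣ) : ℤ_[l]) : ℚ_[l]) :=
    continuous_subtype_val.comp h3'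
  exact (h1.matrix_det).mul (h3.pow (w * m))

theorem chi_open (M : PMot F S n w h) (l : ℕ) [Fact l.Prime] (m : ℕ) (hm : n = m + m) :
    IsOpen ((chi M l m).ker : Set (Gal F)) := by
  have h1 : ((chi M l m).ker : Set (Gal F)) = (chi M l m) ⁻¹' {(-1 : ℚ_[l])}ᶜ := by
    ext σ
    rw [SetLike.mem_coe, MonoidHom.mem_ker]
    simp only [Set.mem_preimage, Set.mem_compl_iff, Set.mem_singleton_iff]
    constructor
    · intro h2 h3
      rw [h2] at h3
      have h4 : (2 : ℚ_[l]) = 0 := by linear_combination h3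
      exact two_ne_zero h4
    · intro h2
      rcases chi_sq M l m hm σ with h3 | h3
      · exact h3
      · exact absurd h3 h2
  rw [h1]
  exact isClosed_singleton.isOpen_compl.preimage (chi_continuous M l m)

end MT.H36

namespace MT

open H36 in
/-- G07 -/
theorem st_G07 (hT : ST_TEN) : ST_G07 := by
  intro F _ _ S n w h M l _ K _ _ hn g hg
  have hK : CharZero K := charZero_of_injective_algebraMap (algebraMap ℚ_[l] K).injective
  have h1 : g ∈ Sim M.ψ K := by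
    rw [hT.2 K n M.ψ M.ψ_det g]
    refine hT.1 ℚ_[l] n 2 2 (M.ρ l '' (⊤ : Subgroup (Gal F))) (polTen M.ψ) ?_ K g
      (hg ⊤ isOpen_univ)
    rintro _ ⟨σ, -, rfl⟩
    exact M.mot_gal 2 2 _ M.mot_pol l σ
  obtain ⟨c, hc⟩ := h1
  refine ⟨c, hc, ?_⟩
  rintro - ⟨m, rfl⟩
  have hc0 := mult_ne K M.ψ_det hn g c hc
  have h2 : (m + m) / 2 = m := by omega
  rw [h2]
  refine (tenD_iff K M.ψ (psi_ne M.ψ_det hn) g c hc0 hc).mp ?_
  refine hT.1 ℚ_[l] (m + m) (m + m) (m + m) (M.ρ l '' (chi M l m).ker) (tenD M.ψ) ?_ K g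
    (hg _ (chi_open M l m rfl))
  rintro _ ⟨σ, hσ, rfl⟩
  have h3 : chi M l m σ = 1 := MonoidHom.mem_ker.mp hσ
  have h4 := M.ψ_gal l σ
  have h5 := cyc_ne l σ
  set u : ℚ_[l] := (((cyc l F σ : ℤ_[l]ˣ) : ℤ_[l]) : ℚ_[l]) with hu
  have h6 : ((M.ρ l σ : Matrix.GeneralLinearGroup (Fin (m + m)) ℚ_[l]) :
      Matrix (Fin (m + m)) (Fin (m + m)) ℚ_[l]).transpose * bas ℚ_[l] M.ψ *
      ((M.ρ l σ : Matrix.GeneralLinearGroup (Fin (m + m)) ℚ_[l]) :
      Matrix (Fin (m + m)) (Fin (m + m)) ℚ_[l]) = ((u ^ w)⁻¹) • bas ℚ_[l] M.ψ := by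
    conv_rhs => rw [← h4]
    rw [smul_smul, inv_mul_cancel₀ (pow_ne_zero w h5), one_smul]
    rfl
  refine (tenD_iff ℚ_[l] M.ψ (psi_ne M.ψ_det hn) (M.ρ l σ) ((u ^ w)⁻¹)
    (inv_ne_zero (pow_ne_zero w h5)) h6).mpr ?_
  have h7 : (mat (M.ρ l) σ).det * u ^ (w * m) = 1 := h3
  rw [inv_pow, ← pow_mul]
  exact eq_inv_of_mul_eq_one_left h7

end MT
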