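import Pool.Agent.Helper36.MT7.TenD

/-!
# For G07: the connected group of similitudes

The tensor `det⁻¹ ⊗ ψ^(n/2)` is a Hodge class, and is fixed by an open subgroup of the Galois group.
-/

set_option autoImplicit false

open NumberField MU

namespace MT.H36

/-- a form is invertible over every field of characteristic zero -/
theorem bas_det_ne {n : ℕ} (K : Type) [Field K] [CharZero K] {ψ : Matrix (Fin n) (Fin n) ℚ}
    (hψ : ψ.det ≠ 0) : (bas K ψ).det ≠ 0 := by
  have h1 := RingHom.map_det (Rat.castHom K) ψ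
  rw [Rat.coe_castHom] at h1
  have h2 : (Rat.castHom K).mapMatrix ψ = bas K ψ := rfl
  rw [← h2, ← h1]
  exact Rat.cast_ne_zero.mpr hψ

/-- the multiplier of a similitude is not zero -/
theorem mult_ne {n : ℕ} (K : Type) [Field K] [CharZero K] {ψ : Matrix (Fin n) (Fin n) ℚ}
    (hψ : ψ.det ≠ 0) (hn : 1 ≤ n) (g : Matrix.GeneralLinearGroup (Fin n) K) (c : K)
    (hg : (g : Matrix (Fin n) (Fin n) K).transpose * bas K ψ *
      (g : Matrix (Fin n) (Fin n) K) = c • bas K ψ) : c ≠ 0 := by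
  rintro rfl
  have h1 := congrArg Matrix.det hg
  rw [zero_smul, Matrix.det_mul, Matrix.det_mul, Matrix.det_transpose] at h1
  have : Nonempty (Fin n) := ⟨⟨0, hn⟩⟩
  rw [Matrix.det_zero] at h1
  have h2 : (g : Matrix (Fin n) (Fin n) K).det ≠ 0 :=
    ((Matrix.isUnit_iff_isUnit_det _).mp g.isUnit).ne_zero
  exact mul_ne_zero (mul_ne_zero h2 (bas_det_ne K hψ)) h2 h1

theorem psi_ne {n : ℕ} {ψ : Matrix (Fin n) (Fin n) ℚ} (hψ : ψ.det ≠ 0) (hn : 1 ≤ n) : ψ ≠ 0 := by
  rintro rfl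
  have : Nonempty (Fin n) := ⟨⟨0, hn⟩⟩
  exact hψ Matrix.det_zero

variable {F : Type} [Field F] [NumberField F] {S : Finset ℕ} {n w : ℕ} {h : Fin n → ℕ}

/-- the sum of the Hodge types -/
theorem sum_h (M : PMot F S n w h) : 2 * ∑ j, h j = n * w := by
  classical
  set B : Matrix (Fin n) (Fin n) ℂ := (M.hodge : Matrix (Fin n) (Fin n) ℂ) with hB
  set P : Matrix (Fin n) (Fin n) ℂ := B.transpose * bas ℂ M.ψ * B with hP
  have hBd : B.det ≠ 0 := ((Matrix.isUnit_iff_isUnit_det _).mp M.hodge.isUnit).ne_zero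
  have hPd : P.det ≠ 0 := by
    rw [hP, Matrix.det_mul, Matrix.det_mul, Matrix.det_transpose]
    exact mul_ne_zero (mul_ne_zero hBd (bas_det_ne ℂ M.ψ_det)) hBd
  rw [Matrix.det_apply] at hPd
  obtain ⟨σ, -, hσ⟩ := Finset.exists_ne_zero_of_sum_ne_zero hPd
  have h1 : ∏ i, P (σ i) i ≠ 0 := by
    intro h0
    rw [h0, smul_zero] at hσ
    exact hσ rfl
  rw [Finset.prod_ne_zero_iff] at h1
  have h2 : ∀ i, h (σ i) + h i = w := fun i => M.hodge_ψ (σ i) i (h1 i (Finset.mem_univ i))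
  have h3 : ∑ i, (h (σ i) + h i) = n * w := by
    simp only [h2, Finset.sum_const, Finset.card_univ, Fintype.card_fin, smul_eq_mul]
  rw [Finset.sum_add_distrib, Equiv.sum_comp σ h] at h3
  omega

/-- the diagonal matrix of the action of `z` -/
noncomputable def dz (h : Fin n → ℕ) (w : ℕ) (z : ℂˣ) (j : Fin n) : ℂ :=
  (z : ℂ) ^ h j * (starRingEnd ℂ (z : ℂ)) ^ (w - h j)

theorem hz_coe (B : Matrix.GeneralLinearGroup (Fin n) ℂ) (h : Fin n → ℕ) (w : ℕ) (z : ℂˣ) :
    (hz B h w z : Matrix (Fin n) (Fin n) ℂ) =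
      (B : Matrix (Fin n) (Fin n) ℂ) * Matrix.diagonal (dz h w z) *
        ((B⁻¹ : Matrix.GeneralLinearGroup (Fin n) ℂ) : Matrix (Fin n) (Fin n) ℂ) := by
  unfold hz dz
  rw [Units.val_mul, Units.val_mul]
  rfl

/-- the action of `ℂˣ` is by similitudes -/
theorem hz_sim (M : PMot F S n w h) (z : ℂˣ) :
    (hz M.hodge h w z : Matrix (Fin n) (Fin n) ℂ).transpose * bas ℂ M.ψ *
      (hz M.hodge h w z : Matrix (Fin n) (Fin n) ℂ) =
        (((z : ℂ) * starRingEnd ℂ (z : ℂ)) ^ w) • bas ℂ M.ψ := by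
  set B : Matrix (Fin n) (Fin n) ℂ := (M.hodge : Matrix (Fin n) (Fin n) ℂ) with hB
  set B' : Matrix (Fin n) (Fin n) ℂ :=
    ((M.hodge⁻¹ : Matrix.GeneralLinearGroup (Fin n) ℂ) : Matrix (Fin n) (Fin n) ℂ) with hB'
  have hBB : B * B' = 1 := Units.mul_inv M.hodge
  set D : Matrix (Fin n) (Fin n) ℂ := Matrix.diagonal (dz h w z) with hD
  have h1 : D * (B.transpose * bas ℂ M.ψ * B) * D =
      (((z : ℂ) * starRingEnd ℂ (z : ℂ)) ^ w) • (B.transpose * bas ℂ M.ψ * B) := by
    ext i j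
    rw [hD, Matrix.mul_diagonal, Matrix.diagonal_mul, Matrix.smul_apply, smul_eq_mul]
    by_cases h0 : (B.transpose * bas ℂ M.ψ * B) i j = 0
    · rw [h0]
      ring
    · have h2 := M.hodge_ψ i j h0
      have h3 : dz h w z i * dz h w z j = ((z : ℂ) * starRingEnd ℂ (z : ℂ)) ^ w := by
        unfold dz
        have h4 : (w - h i) + (w - h j) = w := by omega
        calc _ = (z : ℂ) ^ (h i + h j) * (starRingEnd ℂ (z : ℂ)) ^ ((w - h i) + (w - h j)) := by
              rw [pow_add, pow_add]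
              ring
          _ = _ := by rw [h2, h4, mul_pow]
      rw [← h3]
      ring
  rw [hz_coe]
  calc _ = B'.transpose * (D * (B.transpose * bas ℂ M.ψ * B) * D) * B' := by
        rw [Matrix.transpose_mul, Matrix.transpose_mul, Matrix.diagonal_transpose]
        simp only [Matrix.mul_assoc]
        rfl
    _ = _ := by
        rw [h1, Matrix.mul_smul, Matrix.smul_mul]
        congr 1
        calc _ = (B'.transpose * B.transpose) * bas ℂ M.ψ * (B * B') := by
              simp only [Matrix.mul_assoc]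
          _ = _ := by
              rw [← Matrix.transpose_mul, hBB, Matrix.transpose_one, Matrix.one_mul,
                Matrix.mul_one]

theorem hz_det (M : PMot F S n w h) (m : ℕ) (hm : n = m + m) (z : ℂˣ) :
    (hz M.hodge h w z : Matrix (Fin n) (Fin n) ℂ).det =
      (((z : ℂ) * starRingEnd ℂ (z : ℂ)) ^ w) ^ m := by
  rw [hz_coe, Matrix.det_mul, Matrix.det_mul, Matrix.det_diagonal]
  have h1 : (M.hodge : Matrix (Fin n) (Fin n) ℂ).det *
      ((M.hodge⁻¹ : Matrix.GeneralLinearGroup (Fin n) ℂ) : Matrix (Fin n) (Fin n) ℂ).det = 1 := by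
    rw [← Matrix.det_mul]
    have h2 : (M.hodge : Matrix (Fin n) (Fin n) ℂ) *
      ((M.hodge⁻¹ : Matrix.GeneralLinearGroup (Fin n) ℂ) : Matrix (Fin n) (Fin n) ℂ) = 1 :=
        Units.mul_inv M.hodge
    rw [h2, Matrix.det_one]
  have h3 : ∏ j, dz h w z j = (((z : ℂ) * starRingEnd ℂ (z : ℂ)) ^ w) ^ m := by
    unfold dz
    rw [Finset.prod_mul_distrib, Finset.prod_pow_eq_pow_sum, Finset.prod_pow_eq_pow_sum]
    have h4 := sum_h M
    have h5 : ∑ j, h j = w * m := by
      have h9 : n * w = 2 * (w * m) := by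
        rw [hm]
        ring
      omega
    have h6 : ∑ j, (w - h j) = w * m := by
      have h7 : ∑ j, (w - h j) + ∑ j, h j = n * w := by
        rw [← Finset.sum_add_distrib]
        have h8 : ∀ j, w - h j + h j = w := fun j => Nat.sub_add_cancel (M.hodge_le j)
        simp only [h8, Finset.sum_const, Finset.card_univ, Fintype.card_fin, smul_eq_mul]
      have h9 : n * w = 2 * (w * m) := by
        rw [hm]
        ring
      omega
    rw [h5, h6, ← mul_pow, ← pow_mul]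
  rw [h3]
  calc _ = ((M.hodge : Matrix (Fin n) (Fin n) ℂ).det *
      ((M.hodge⁻¹ : Matrix.GeneralLinearGroup (Fin n) ℂ) : Matrix (Fin n) (Fin n) ℂ).det) *
        (((z : ℂ) * starRingEnd ℂ (z : ℂ)) ^ w) ^ m := by ring
    _ = _ := by rw [h1, one_mul]

/-- the tensor is a Hodge class -/
theorem tenD_hodge {m : ℕ} {h : Fin (m + m) → ℕ} (M : PMot F S (m + m) w h) (hm : 1 ≤ m + m) :
    M.IsHodge (tenD M.ψ) := by
  intro z
  refine (tenD_iff ℂ M.ψ (psi_ne M.ψ_det hm) (hz M.hodge h w z)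
    (((z : ℂ) * starRingEnd ℂ (z : ℂ)) ^ w) ?_ (hz_sim M z)).mpr (hz_det M m rfl z)
  apply pow_ne_zero
  apply mul_ne_zero z.ne_zero
  exact (map_ne_zero (starRingEnd ℂ)).mpr z.ne_zero

end MT.H36
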