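import Pool.Agent.Helper21.MT7.Stmts
import Pool.Agent.Helper43.MU.Sub

/-!
# SI7: strong irreducibility in terms of subspaces

A subspace `U` with finitely many translates under the image of the Galois group is stable under an
open subgroup (its stabiliser is closed and has finite index); by IRR7 it is trivial.
-/

set_option autoImplicit false

open NumberField MU

namespace MT

/-- the translates of a subspace under a matrix representation -/
private def tr {G K : Type} [Group G] [Field K] {n : ℕ} (r : G →* Matrix (Fin n) (Fin n) K)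
    (U : Submodule K (Fin n → K)) (g : G) : Submodule K (Fin n → K) :=
  U.map (Matrix.mulVecLin (r g))

private theorem tr_one {G K : Type} [Group G] [Field K] {n : ℕ}
    (r : G →* Matrix (Fin n) (Fin n) K) (U : Submodule K (Fin n → K)) : tr r U 1 = U := by
  unfold tr
  rw [map_one, Matrix.mulVecLin_one, Submodule.map_id]

private theorem tr_mul {G K : Type} [Group G] [Field K] {n : ℕ}
    (r : G →* Matrix (Fin n) (Fin n) K) (U : Submodule K (Fin n → K)) (g g' : G) :
    tr r U (g * g') = (tr r U g').map (Matrix.mulVecLin (r g)) := by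
  unfold tr
  rw [map_mul, Matrix.mulVecLin_mul, Submodule.map_comp]

/-- the stabiliser of a subspace -/
private def stb {G K : Type} [Group G] [Field K] {n : ℕ} (r : G →* Matrix (Fin n) (Fin n) K)
    (U : Submodule K (Fin n → K)) : Subgroup G where
  carrier := {g | tr r U g = U}
  one_mem' := tr_one r U
  mul_mem' := by
    intro a b ha hb
    change tr r U (a * b) = U
    rw [tr_mul, show tr r U b = U from hb]
    exact ha
  inv_mem' := by
    intro a ha
    change tr r U a⁻¹ = U
    have h1 : tr r U (a⁻¹ * a) = tr r U a⁻¹ := by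
      rw [tr_mul, show tr r U a = U from ha]
      rfl
    rw [← h1, inv_mul_cancel, tr_one]

private theorem mem_stb {G K : Type} [Group G] [Field K] {n : ℕ}
    (r : G →* Matrix (Fin n) (Fin n) K) (U : Submodule K (Fin n → K)) (g : G) :
    g ∈ stb r U ↔ ∀ v ∈ U, (r g).mulVec v ∈ U := by
  constructor
  · intro hg v hv
    have h1 : (r g).mulVec v ∈ tr r U g := ⟨v, hv, rfl⟩
    rwa [show tr r U g = U from hg] at h1
  · intro hg
    change U.map (Matrix.mulVecLin (r g)) = U
    have hle : U.map (Matrix.mulVecLin (r g)) ≤ U := by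
      rintro _ ⟨v, hv, rfl⟩
      exact hg v hv
    have hinj : Function.Injective (Matrix.mulVecLin (r g)) := by
      intro v w hvw
      have h2 : (r g⁻¹).mulVec ((r g).mulVec v) = (r g⁻¹).mulVec ((r g).mulVec w) :=
        congrArg _ hvw
      rwa [Matrix.mulVec_mulVec, Matrix.mulVec_mulVec, ← map_mul, inv_mul_cancel, map_one,
        Matrix.one_mulVec, Matrix.one_mulVec] at h2
    exact Submodule.eq_of_le_of_finrank_eq hle
      (LinearEquiv.finrank_eq (Submodule.equivMapOfInjective _ hinj U)).symm

private theorem stb_finite {G K : Type} [Group G] [Field K] {n : ℕ}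
    (r : G →* Matrix (Fin n) (Fin n) K) (U : Submodule K (Fin n → K))
    (hU : (Set.range (tr r U)).Finite) : (stb r U).FiniteIndex := by
  have : Finite (Set.range (tr r U)) := hU
  have : Finite (G ⧸ stb r U) := by
    let f : G ⧸ stb r U → Set.range (tr r U) := fun q =>
      ⟨tr r U q.out, ⟨q.out, rfl⟩⟩
    refine Finite.of_injective f ?_
    intro q q' hq
    have h1 : tr r U q.out = tr r U q'.out := congrArg Subtype.val hq
    rw [← QuotientGroup.out_eq' q, ← QuotientGroup.out_eq' q', QuotientGroup.eq]
    change tr r U (q.out⁻¹ * q'.out) = U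
    rw [tr_mul, ← h1, ← tr_mul, inv_mul_cancel, tr_one]
  exact Subgroup.finiteIndex_of_finite_quotient

theorem st_SI7 (h7 : ST_IRR7) : ST_SI7 := by
  intro F _ _ S hS n w h M l _ hA U hfin
  have hfin' : (Set.range (tr (mat (M.ρ l)) U)).Finite := by
    refine hfin.subset ?_
    rintro _ ⟨g, rfl⟩
    exact ⟨M.ρ l g, ⟨g, rfl⟩, rfl⟩
  have hFI := stb_finite (mat (M.ρ l)) U hfin'
  have hcl : IsClosed (stb (mat (M.ρ l)) U : Set (Gal F)) := by
    have h1 : (stb (mat (M.ρ l)) U : Set (Gal F)) =
        ⋂ v ∈ U, {g | (mat (M.ρ l) g).mulVec v ∈ U} := by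
      ext g
      rw [SetLike.mem_coe, mem_stb]
      simp only [Set.mem_iInter, Set.mem_ofPred_eq]
    rw [h1]
    refine isClosed_biInter fun v _ => ?_
    have hUc : IsClosed (U : Set (Fin n → ℚ_[l])) := Submodule.closed_of_finiteDimensional U
    refine hUc.preimage (f := fun g => (mat (M.ρ l) g).mulVec v) ?_
    have h2 : Continuous fun g => mat (M.ρ l) g :=
      Units.continuous_val.comp (M.continuous l)
    exact Continuous.matrix_mulVec h2 continuous_const
  have hop : IsOpen (stb (mat (M.ρ l)) U : Set (Gal F)) :=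
    Subgroup.isOpen_of_isClosed_of_finiteIndex _ hcl
  exact irr_stable (h7 F S hS n w h M l hA _ hop) U fun g v hv =>
    (mem_stb (mat (M.ρ l)) U (g : Gal F)).mp g.2 v hv

end MT
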