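import Pool.Agent.Helper21.MT7.Stmts

/-!
# The tensor `det⁻¹ ⊗ ψ^(n/2)`

For `n = m + m` the tensor `t(i, j) = ε(i) ψ(j_1, j_(m+1)) ⋯ ψ(j_m, j_(m+m))` in `T^(n, n)` is
multiplied by `det g / c ^ m` under a similitude `g` of `ψ` with multiplier `c`.
-/

set_option autoImplicit false

open NumberField MU

namespace MT.H36

/-- the sign of a permutation, `0` for other maps -/
def eps (R : Type*) [CommRing R] {n : ℕ} (i : Fin n → Fin n) : R :=
  ((1 : Matrix (Fin n) (Fin n) R).submatrix i id).det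

/-- a power of the form -/
def ptw {R : Type*} [CommRing R] {n : ℕ} (m : ℕ) (ψ : Matrix (Fin n) (Fin n) R)
    (j : Fin (m + m) → Fin n) : R :=
  ∏ s : Fin m, ψ (j (Fin.castAdd m s)) (j (Fin.natAdd m s))

theorem sum_eps {R : Type*} [CommRing R] {n : ℕ} (g : Matrix (Fin n) (Fin n) R)
    (i : Fin n → Fin n) :
    ∑ i' : Fin n → Fin n, (∏ s, g (i s) (i' s)) * eps R i' = g.det * eps R i := by
  have h1 : (g.submatrix i id).det = eps R i * g.det := by
    unfold eps
    rw [← Matrix.det_mul]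
    congr 1
    ext a b
    simp [Matrix.mul_apply, Matrix.one_apply]
  rw [mul_comm g.det, ← h1]
  have h2 : (g.submatrix i id) = fun s => ∑ b, g (i s) b • (1 : Matrix (Fin n) (Fin n) R) b := by
    ext s c
    simp [Finset.sum_apply, Matrix.one_apply]
  rw [h2]
  change _ = (Matrix.detRowAlternating (R := R) (n := Fin n)).toMultilinearMap
    (fun s => ∑ b, g (i s) b • (1 : Matrix (Fin n) (Fin n) R) b)
  rw [MultilinearMap.map_sum]
  refine Finset.sum_congr rfl fun i' _ => ?_
  rw [MultilinearMap.map_smul_univ]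
  rfl

theorem sum_ptw {R : Type*} [CommRing R] {n : ℕ} (m : ℕ) (ψ H : Matrix (Fin n) (Fin n) R)
    (j : Fin (m + m) → Fin n) :
    ∑ j' : Fin (m + m) → Fin n, (∏ s, H (j' s) (j s)) * ptw m ψ j' =
      ptw m (H.transpose * ψ * H) j := by
  rw [← (Fin.appendEquiv m m).sum_comp, Fintype.sum_prod_type]
  have h1 : ∀ x y : Fin n, (H.transpose * ψ * H) x y = ∑ a, ∑ b, H a x * H b y * ψ a b := by
    intro x y
    rw [Matrix.mul_apply]
    simp only [Matrix.mul_apply, Matrix.transpose_apply, Finset.sum_mul]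
    rw [Finset.sum_comm]
    refine Finset.sum_congr rfl fun a _ => Finset.sum_congr rfl fun b _ => ?_
    ring
  unfold ptw
  simp only [h1]
  rw [Finset.prod_univ_sum, Fintype.piFinset_univ]
  refine Finset.sum_congr rfl fun u _ => ?_
  rw [Finset.prod_univ_sum, Fintype.piFinset_univ]
  refine Finset.sum_congr rfl fun v _ => ?_
  rw [Fin.prod_univ_add]
  simp only [Fin.appendEquiv, Equiv.coe_fn_mk, Fin.append_left, Fin.append_right]
  rw [Finset.prod_mul_distrib, Finset.prod_mul_distrib]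

theorem ptw_smul {R : Type*} [CommRing R] {n : ℕ} (m : ℕ) (c : R) (ψ : Matrix (Fin n) (Fin n) R)
    (j : Fin (m + m) → Fin n) : ptw m (c • ψ) j = c ^ m * ptw m ψ j := by
  unfold ptw
  simp only [Matrix.smul_apply, smul_eq_mul, Finset.prod_mul_distrib, Finset.prod_const,
    Finset.card_univ, Fintype.card_fin]

/-- the tensor `det⁻¹ ⊗ ψ^(n/2)` -/
def tenD {m : ℕ} (ψ : Matrix (Fin (m + m)) (Fin (m + m)) ℚ) : Tensor (m + m) (m + m) (m + m) ℚ :=
  fun i j => eps ℚ i * ptw m ψ j

theorem tenD_base (K : Type) [Field K] [CharZero K] {m : ℕ}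
    (ψ : Matrix (Fin (m + m)) (Fin (m + m)) ℚ) (i j : Fin (m + m) → Fin (m + m)) :
    (tenD ψ).base K i j = eps K i * ptw m (bas K ψ) j := by
  unfold Tensor.base tenD
  rw [Rat.cast_mul]
  congr 1
  · unfold eps
    have h1 := RingHom.map_det (Rat.castHom K)
      ((1 : Matrix (Fin (m + m)) (Fin (m + m)) ℚ).submatrix i id)
    rw [Rat.coe_castHom] at h1
    rw [h1]
    congr 1
    ext a b
    by_cases hab : i a = b
    · simp [Matrix.one_apply, hab]
    · simp [Matrix.one_apply, hab]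
  · unfold ptw bas
    rw [Rat.cast_prod]
    rfl

theorem act_tenD (K : Type) [Field K] [CharZero K] {m : ℕ}
    (ψ : Matrix (Fin (m + m)) (Fin (m + m)) ℚ) (g : Matrix.GeneralLinearGroup (Fin (m + m)) K)
    (c : K) (hc : c ≠ 0) (hg : (g : Matrix (Fin (m + m)) (Fin (m + m)) K).transpose * bas K ψ *
      (g : Matrix (Fin (m + m)) (Fin (m + m)) K) = c • bas K ψ)
    (i j : Fin (m + m) → Fin (m + m)) :
    act g ((tenD ψ).base K) i j =
      (g : Matrix (Fin (m + m)) (Fin (m + m)) K).det * (c⁻¹) ^ m * (tenD ψ).base K i j := by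
  have h0 : ((g⁻¹ : Matrix.GeneralLinearGroup (Fin (m + m)) K) :
      Matrix (Fin (m + m)) (Fin (m + m)) K).transpose * bas K ψ *
      ((g⁻¹ : Matrix.GeneralLinearGroup (Fin (m + m)) K) :
        Matrix (Fin (m + m)) (Fin (m + m)) K) = c⁻¹ • bas K ψ := by
    have h1 : (g : Matrix (Fin (m + m)) (Fin (m + m)) K) *
        ((g⁻¹ : Matrix.GeneralLinearGroup (Fin (m + m)) K) :
          Matrix (Fin (m + m)) (Fin (m + m)) K) = 1 := Units.mul_inv g
    have h2 : ((g⁻¹ : Matrix.GeneralLinearGroup (Fin (m + m)) K) :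
          Matrix (Fin (m + m)) (Fin (m + m)) K).transpose *
            (g : Matrix (Fin (m + m)) (Fin (m + m)) K).transpose = 1 := by
      rw [← Matrix.transpose_mul, h1, Matrix.transpose_one]
    have h3 : bas K ψ = c⁻¹ • ((g : Matrix (Fin (m + m)) (Fin (m + m)) K).transpose * bas K ψ *
        (g : Matrix (Fin (m + m)) (Fin (m + m)) K)) := by
      rw [hg, smul_smul, inv_mul_cancel₀ hc, one_smul]
    conv_lhs => rw [h3]
    rw [Matrix.mul_smul, Matrix.smul_mul]
    congr 1
    calc _ = (((g⁻¹ : Matrix.GeneralLinearGroup (Fin (m + m)) K) :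
          Matrix (Fin (m + m)) (Fin (m + m)) K).transpose *
            (g : Matrix (Fin (m + m)) (Fin (m + m)) K).transpose) * bas K ψ *
          ((g : Matrix (Fin (m + m)) (Fin (m + m)) K) *
        ((g⁻¹ : Matrix.GeneralLinearGroup (Fin (m + m)) K) :
          Matrix (Fin (m + m)) (Fin (m + m)) K)) := by
            simp only [Matrix.mul_assoc]
      _ = bas K ψ := by rw [h1, h2, Matrix.one_mul, Matrix.mul_one]
  unfold act
  simp only [tenD_base]
  have h4 : ∀ i' j' : Fin (m + m) → Fin (m + m),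
      (∏ s, (g : Matrix (Fin (m + m)) (Fin (m + m)) K) (i s) (i' s)) *
      (∏ s, ((g⁻¹ : Matrix.GeneralLinearGroup (Fin (m + m)) K) :
        Matrix (Fin (m + m)) (Fin (m + m)) K) (j' s) (j s)) * (eps K i' * ptw m (bas K ψ) j') =
      ((∏ s, (g : Matrix (Fin (m + m)) (Fin (m + m)) K) (i s) (i' s)) * eps K i') *
      ((∏ s, ((g⁻¹ : Matrix.GeneralLinearGroup (Fin (m + m)) K) :
        Matrix (Fin (m + m)) (Fin (m + m)) K) (j' s) (j s)) * ptw m (bas K ψ) j') := by
    intro i' j'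
    ring
  simp only [h4]
  rw [← Finset.sum_mul_sum, sum_eps, sum_ptw, h0, ptw_smul]
  ring

theorem tenD_ne (K : Type) [Field K] [CharZero K] {m : ℕ}
    (ψ : Matrix (Fin (m + m)) (Fin (m + m)) ℚ) (hψ : ψ ≠ 0) :
    ∃ i j, (tenD ψ).base K i j ≠ 0 := by
  obtain ⟨a, b, hab⟩ : ∃ a b, ψ a b ≠ 0 := by
    by_contra hcon
    push Not at hcon
    exact hψ (by ext a b; exact hcon a b)
  refine ⟨id, Fin.append (fun _ => a) (fun _ => b), ?_⟩
  rw [tenD_base]
  have h1 : eps K (id : Fin (m + m) → Fin (m + m)) = 1 := by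
    unfold eps
    rw [Matrix.submatrix_id_id, Matrix.det_one]
  rw [h1, one_mul]
  unfold ptw
  simp only [Fin.append_left, Fin.append_right, Finset.prod_const]
  apply pow_ne_zero
  change ((ψ a b : ℚ) : K) ≠ 0
  exact Rat.cast_ne_zero.mpr hab

/-- a similitude of multiplier `c` fixes the tensor iff its determinant is `c ^ m` -/
theorem tenD_iff (K : Type) [Field K] [CharZero K] {m : ℕ}
    (ψ : Matrix (Fin (m + m)) (Fin (m + m)) ℚ) (hψ : ψ ≠ 0)
    (g : Matrix.GeneralLinearGroup (Fin (m + m)) K)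
    (c : K) (hc : c ≠ 0) (hg : (g : Matrix (Fin (m + m)) (Fin (m + m)) K).transpose * bas K ψ *
      (g : Matrix (Fin (m + m)) (Fin (m + m)) K) = c • bas K ψ) :
    act g ((tenD ψ).base K) = (tenD ψ).base K ↔
      (g : Matrix (Fin (m + m)) (Fin (m + m)) K).det = c ^ m := by
  have h0 : (g : Matrix (Fin (m + m)) (Fin (m + m)) K).det * (c⁻¹) ^ m = 1 ↔
      (g : Matrix (Fin (m + m)) (Fin (m + m)) K).det = c ^ m := by
    rw [inv_pow]
    exact mul_inv_eq_one₀ (pow_ne_zero m hc)
  rw [← h0]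
  constructor
  · intro h
    obtain ⟨i, j, hij⟩ := tenD_ne K ψ hψ
    have h1 := act_tenD K ψ g c hc hg i j
    rw [h] at h1
    exact (mul_right_cancel₀ hij (by rw [one_mul]; exact h1)).symm
  · intro h
    ext i j
    rw [act_tenD K ψ g c hc hg i j, h, one_mul]

end MT.H36
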